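import Pool.Agent.H22.Sym4

set_option autoImplicit false

namespace Pool.Agent.Results.MP_2b78ec_gt.NoExample

open Pool.Agent.H22.Sym

theorem result (n : ℕ) (H : Submodule ℝ (En n)) (b : Bool) :
    ¬ ∃ (F : Set (En n) → NNReal) (S : Set (En n) → Set (En n)),
      (∀ K L, InB b K → InB b L → K ⊂ L → F K < F L) ∧
      (∀ K, InB b K → InB b (S K) ∧ HSym H (S K)) ∧
      (∀ K L, InB b K → InB b L → K ⊆ L → S K ⊆ S L) ∧
      (∀ K, InB b K → F (S K) = F K) ∧
      (∀ x ∈ H, ∀ r s : ℝ, 0 < r → 0 < s → S (cyl H x r s) = cyl H x r s) ∧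
      ¬ (∀ K, InB b K → H.starProjection '' S K = H.starProjection '' K) := by
  rintro ⟨F, S, -, h1, h2, -, h3, h4⟩
  exact h4 fun K hK => proj_eq h1 h2 h3 hK

end Pool.Agent.Results.MP_2b78ec_gt.NoExample
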